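import Mathlib

/-!
# Geometric origin of Galois representations: data and known facts

`G` is the absolute Galois group of `K`, `C = ℚ̄_p`.
-/

namespace Pool.Agent.N522.BIA

/-- Linear actions of `G` on `V`. -/
structure Act (C G V : Type) [Field C] [Group G] [AddCommGroup V] [Module C V] where
  /-- the operator attached to `g` -/
  act : G → V →ₗ[C] V
  one : ∀ v, act 1 v = v
  mul : ∀ g h v, act (g * h) v = act g (act h v)

/-- restriction of an action to a subgroup -/
def Act.res {C G V : Type} [Field C] [Group G] [AddCommGroup V] [Module C V] (ρ : Act C G V)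
    (H : Subgroup G) : Act C H V where
  act h := ρ.act h
  one := ρ.one
  mul g h := ρ.mul g h

/-- `(W, σ)` is a subquotient of `(V, ρ)`: there is a stable subspace `R` of `V × W` which is the
graph of a surjective map from a subspace of `V` to `W`. -/
def IsSubquotient {C G V W : Type} [Field C] [Group G] [AddCommGroup V] [Module C V]
    [AddCommGroup W] [Module C W] (ρ : Act C G V) (σ : Act C G W) : Prop :=
  ∃ R : Submodule C (V × W), (∀ g v w, (v, w) ∈ R → (ρ.act g v, σ.act g w) ∈ R) ∧
    (∀ w, (0, w) ∈ R → w = 0) ∧ ∀ w, ∃ v, (v, w) ∈ R

/-- `(I, σ)` is induced from the representation `(V, ρ)` of the subgroup `H`, with evaluation map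
`ev`: the `H`-equivariant map `ev` identifies `I` with the space of functions `f : G → V` with
`f(h x) = h f(x)`. -/
def IsInduced {C G V I : Type} [Field C] [Group G] [AddCommGroup V] [Module C V]
    [AddCommGroup I] [Module C I] (H : Subgroup G) (ρ : Act C H V)
    (σ : Act C G I) (ev : I →ₗ[C] V) : Prop :=
  (∀ (h : H) (w : I), ev (σ.act h w) = ρ.act h (ev w)) ∧
  ∀ f : G → V, (∀ (h : H) (x : G), f (h * x) = ρ.act h (f x)) → ∃ w, ∀ x, ev (σ.act x w) = f x

/-- `(V ⊗ U, π)` is the tensor product of `(V, ρ)` and `(U, τ)` -/
def IsTensor {C G V U : Type} [Field C] [Group G] [AddCommGroup V] [Module C V]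
    [AddCommGroup U] [Module C U] (ρ : Act C G V) (τ : Act C G U)
    (π : Act C G (TensorProduct C V U)) : Prop :=
  ∀ g, π.act g = TensorProduct.map (ρ.act g) (τ.act g)

/-- `(U^*, π)` is the dual of `(U, τ)` -/
def IsDual {C G U : Type} [Field C] [Group G] [AddCommGroup U] [Module C U]
    (τ : Act C G U) (π : Act C G (Module.Dual C U)) : Prop :=
  ∀ g ξ u, π.act g ξ (τ.act g u) = ξ u

/-- Representations arising from étale cohomology of smooth projective varieties. -/
structure Theory (C G : Type) [Field C] [Group G] where
  /-- the open subgroups `G_L` of `G = G_K`, for the finite extensions `L` of `K` -/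
  Open : Subgroup G → Prop
  /-- the representation of `G_K` arises from étale cohomology of a smooth projective variety
  over `K` -/
  Geo : ∀ {V : Type} [AddCommGroup V] [Module C V], Act C G V → Prop
  /-- the representation of `G_L` arises from étale cohomology of a smooth projective variety
  over `L` -/
  GeoOver : ∀ (H : Subgroup G) {V : Type} [AddCommGroup V] [Module C V],
    Act C H V → Prop

/-- Known facts on subquotients (by definition), tensor products (Künneth) and duals (Poincaré
duality). -/
structure TensorFacts {C G : Type} [Field C] [Group G] (T : Theory C G) : Prop where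
  subquotient : ∀ {V W : Type} [AddCommGroup V] [Module C V] [AddCommGroup W] [Module C W]
    (ρ : Act C G V) (σ : Act C G W), IsSubquotient ρ σ → T.Geo ρ → T.Geo σ
  tensor : ∀ {V W : Type} [AddCommGroup V] [Module C V] [AddCommGroup W] [Module C W]
    (ρ : Act C G V) (σ : Act C G W) (π), IsTensor ρ σ π → T.Geo ρ → T.Geo σ →
      T.Geo π
  dual : ∀ {V : Type} [AddCommGroup V] [Module C V] (ρ : Act C G V) (π), IsDual ρ π →
    T.Geo ρ → T.Geo π

/-- Known facts on finite extensions: open subgroups have finite index; a smooth projective variety
over `L` is one over `K`, and its cohomology over `K` is induced. -/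
structure InductionFacts {C G : Type} [Field C] [Group G] (T : Theory C G) : Prop where
  finite : ∀ H, T.Open H → H.FiniteIndex
  ind : ∀ (H : Subgroup G), T.Open H → ∀ {V : Type} [AddCommGroup V] [Module C V]
    (ρ : Act C H V), T.GeoOver H ρ →
      ∃ (I : Type) (_ : AddCommGroup I) (_ : Module C I) (σ : Act C G I)
        (ev : I →ₗ[C] V), IsInduced H ρ σ ev ∧ T.Geo σ

/-- Bianchi newforms over `K` with `χ = χ^c`, and their representations. -/
structure Newforms (C G : Type) [Field C] [Group G] where
  /-- newforms -/
  Form : Type
  /-- the space of `ρ_{f,p}` -/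
  Sp : Form → Type
  [grp : ∀ f, AddCommGroup (Sp f)]
  [mod : ∀ f, Module C (Sp f)]
  /-- the representation `ρ_{f,p}` -/
  rep : ∀ f, Act C G (Sp f)
  /-- the Galois conjugate `f^c` is a twist of `f` -/
  ConjTwist : Form → Prop

attribute [instance] Newforms.grp Newforms.mod

/-- Known fact: if `f^c` is a twist of `f`, there are a classical newform `g` and a finite extension
`L/K` such that `ρ_f` and `ρ_g` are isomorphic over `L` (Tate's lifting theorem and base change), and
the representation of `g` arises from étale cohomology (Deligne, Scholl). -/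
def Descent {C G : Type} [Field C] [Group G] (T : Theory C G) (N : Newforms C G) : Prop :=
  ∀ f : N.Form, N.ConjTwist f → ∃ H, T.Open H ∧ T.GeoOver H ((N.rep f).res H)

end Pool.Agent.N522.BIA
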