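import Pool.Agent.N522.BIA.Defs

/-!
# Geometric origin is a potential property
-/

namespace Pool.Agent.N522.BIA

open TensorProduct

variable {C : Type} [Field C] {G : Type} [Group G]

section trace

variable (H : Subgroup G) {V W I : Type} [AddCommGroup V] [Module C V] [AddCommGroup W]
  [Module C W] [AddCommGroup I] [Module C I]

/-- the sum over the cosets `x H` of `x t(x⁻¹)` -/
noncomputable def cosetSum [H.FiniteIndex] (σ : Act C G W) (t : G → W) : W := by
  classical
  haveI := Fintype.ofFinite (G ⧸ H)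
  exact ∑ c : G ⧸ H, σ.act c.out (t c.out⁻¹)

theorem act_inv_act (σ : Act C G W) (g : G) (w : W) : σ.act g (σ.act g⁻¹ w) = w := by
  rw [← σ.mul, mul_inv_cancel, σ.one]

theorem coset_term (σ : Act C G W) (t : G → W)
    (ht : ∀ (h : H) (x : G), t (h * x) = σ.act h (t x)) (a : G) (h : H) :
    σ.act (a * h) (t (a * h)⁻¹) = σ.act a (t a⁻¹) := by
  have h3 : (a * (h : G))⁻¹ = ((h⁻¹ : H) : G) * a⁻¹ := by
    rw [mul_inv_rev]
    rfl
  rw [h3, ht, σ.mul]
  congr 1
  exact act_inv_act σ _ _

theorem cosetSum_eq [H.FiniteIndex] [Fintype (G ⧸ H)] (σ : Act C G W) (t : G → W)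
    (ht : ∀ (h : H) (x : G), t (h * x) = σ.act h (t x)) (s : G ⧸ H → G)
    (hs : ∀ c, (s c : G ⧸ H) = c) :
    cosetSum H σ t = ∑ c : G ⧸ H, σ.act (s c) (t (s c)⁻¹) := by
  unfold cosetSum
  have : ∀ c : G ⧸ H, σ.act c.out (t c.out⁻¹) = σ.act (s c) (t (s c)⁻¹) := by
    intro c
    have h1 : ((s c : G) : G ⧸ H) = ((c.out : G) : G ⧸ H) := by
      rw [hs c]
      exact (Quotient.out_eq c).symm
    rw [QuotientGroup.eq] at h1
    have h2 := coset_term H σ t ht (s c) ⟨_, h1⟩
    rw [← h2]
    have h3 : s c * ((⟨(s c)⁻¹ * c.out, h1⟩ : H) : G) = c.out := mul_inv_cancel_left _ _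
    rw [h3]
  rw [Finset.sum_congr rfl fun c _ => this c]
  exact Finset.sum_congr (by ext; simp) fun _ _ => rfl

theorem cosetSum_translate [H.FiniteIndex] (σ : Act C G W) (t : G → W)
    (ht : ∀ (h : H) (x : G), t (h * x) = σ.act h (t x)) (g : G) :
    cosetSum H σ (fun x => t (x * g)) = σ.act g (cosetSum H σ t) := by
  classical
  have := Fintype.ofFinite (G ⧸ H)
  rw [cosetSum_eq H σ (fun x => t (x * g)) (fun h x => by rw [mul_assoc, ht]) (fun c => c.out)
    (fun c => Quotient.out_eq c)]
  rw [cosetSum_eq H σ t ht (fun c => g⁻¹ * (g • c).out) (fun c => by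
    have h1 : ((g⁻¹ * (g • c).out : G) : G ⧸ H) = g⁻¹ • (((g • c).out : G) : G ⧸ H) := rfl
    rw [h1, show (((g • c).out : G) : G ⧸ H) = g • c from Quotient.out_eq _, inv_smul_smul])]
  rw [map_sum, ← Equiv.sum_comp (MulAction.toPerm g)
    (fun c : G ⧸ H => σ.act c.out (t (c.out⁻¹ * g)))]
  refine Finset.sum_congr rfl fun c _ => ?_
  rw [← σ.mul, mul_inv_cancel_left]
  change σ.act (g • c).out (t ((g • c).out⁻¹ * g)) = _
  congr 2
  group

/-- if the restriction of `σ` to `H` is a subquotient of `ρ`, then `σ` is a subquotient of the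
representation induced from `ρ` -/
theorem subquotient_ind [H.FiniteIndex] (ρ : Act C H V) (σ : Act C G W) (ι : Act C G I)
    (ev : I →ₗ[C] V) (hI : IsInduced H ρ ι ev) (h : IsSubquotient ρ (σ.res H)) :
    IsSubquotient ι σ := by
  classical
  obtain ⟨R, hR, h0, hs⟩ := h
  -- values are determined
  have huniq : ∀ v w w', (v, w) ∈ R → (v, w') ∈ R → w = w' := by
    intro v w w' h1 h2
    have := h0 (w - w') (by simpa using R.sub_mem h1 h2)
    exact sub_eq_zero.mp this
  have hteq : ∀ (f : I) (t : G → W), (∀ x, (ev (ι.act x f), t x) ∈ R) →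
      ∀ (h : H) (x : G), t (h * x) = σ.act h (t x) := by
    intro f t ht h x
    apply huniq (ev (ι.act (h * x) f))
    · exact ht (h * x)
    · rw [ι.mul, hI.1]
      exact hR h _ _ (ht x)
  let R' : Submodule C (I × W) :=
    { carrier := {p | ∃ t : G → W, (∀ x, (ev (ι.act x p.1), t x) ∈ R) ∧ p.2 = cosetSum H σ t}
      add_mem' := by
        rintro ⟨f, w⟩ ⟨f', w'⟩ ⟨t, ht, rfl⟩ ⟨t', ht', rfl⟩
        refine ⟨fun x => t x + t' x, fun x => ?_, ?_⟩
        · have := R.add_mem (ht x) (ht' x)
          simpa using this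
        · change cosetSum H σ t + cosetSum H σ t' = _
          unfold cosetSum
          rw [← Finset.sum_add_distrib]
          exact Finset.sum_congr rfl fun c _ => (map_add _ _ _).symm
      zero_mem' := by
        refine ⟨fun _ => 0, fun x => ?_, ?_⟩
        · change (ev (ι.act x 0), (0 : W)) ∈ R
          rw [map_zero, map_zero]
          exact R.zero_mem
        · unfold cosetSum
          simp
      smul_mem' := by
        rintro c ⟨f, w⟩ ⟨t, ht, rfl⟩
        refine ⟨fun x => c • t x, fun x => ?_, ?_⟩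
        · have := R.smul_mem c (ht x)
          simpa using this
        · change c • cosetSum H σ t = _
          unfold cosetSum
          rw [Finset.smul_sum]
          exact Finset.sum_congr rfl fun c' _ => (map_smul _ _ _).symm }
  refine ⟨R', ?_, ?_, ?_⟩
  · rintro g f w ⟨t, ht, hw⟩
    refine ⟨fun x => t (x * g), fun x => ?_, ?_⟩
    · have := ht (x * g)
      rwa [ι.mul] at this
    · change σ.act g w = _
      change w = _ at hw
      rw [cosetSum_translate H σ t (hteq f t ht), hw]
  · rintro w ⟨t, ht, hw⟩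
    change w = _ at hw
    have h1 : t = fun _ => 0 := by
      funext x
      have := ht x
      simp only [map_zero] at this
      exact h0 _ this
    rw [hw, h1]
    unfold cosetSum
    simp
  · intro w
    obtain ⟨v, hv⟩ := hs w
    obtain ⟨f, hf⟩ := hI.2 (fun x => if h : x ∈ H then ρ.act ⟨x, h⟩ v else 0) (by
      intro h x
      by_cases hx : x ∈ H
      · have h1 : (h : G) * x ∈ H := H.mul_mem h.2 hx
        simp only [dif_pos hx, dif_pos h1]
        rw [← ρ.mul]
        rfl
      · have h1 : (h : G) * x ∉ H := fun h2 => hx ((H.mul_mem_cancel_left h.2).mp h2)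
        simp only [dif_neg hx, dif_neg h1, map_zero])
    have ht : ∀ x, (ev (ι.act x f), (if h : x ∈ H then σ.act x w else 0 : W)) ∈ R := by
      intro x
      rw [hf]
      by_cases hx : x ∈ H
      · simp only [dif_pos hx]
        exact hR ⟨x, hx⟩ v w hv
      · simp only [dif_neg hx]
        exact R.zero_mem
    refine ⟨f, fun x => if h : x ∈ H then σ.act x w else 0, ht, ?_⟩
    change w = _
    have := Fintype.ofFinite (G ⧸ H)
    rw [cosetSum_eq H σ _ (hteq f _ ht) (fun c => c.out) (fun c => Quotient.out_eq c),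
      Finset.sum_eq_single ((1 : G) : G ⧸ H)]
    · have h1 : (((1 : G) : G ⧸ H)).out⁻¹ ∈ H := by
        have h2 : ((((1 : G) : G ⧸ H).out : G) : G ⧸ H) = ((1 : G) : G ⧸ H) := Quotient.out_eq _
        rw [QuotientGroup.eq] at h2
        simpa using h2
      simp only [dif_pos h1]
      exact (act_inv_act σ _ _).symm
    · intro c _ hc
      have h1 : c.out⁻¹ ∉ H := by
        intro h2
        apply hc
        rw [← show ((c.out : G) : G ⧸ H) = c from Quotient.out_eq c, QuotientGroup.eq, mul_one]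
        exact h2
      simp only [dif_neg h1, map_zero]
    · intro h
      exact absurd (Finset.mem_univ _) h

end trace

section tensor

variable {V U : Type} [AddCommGroup V] [Module C V] [AddCommGroup U] [Module C U]

/-- the contraction `(V ⊗ U) ⊗ U^* → V` -/
noncomputable def contr : (V ⊗[C] U) ⊗[C] Module.Dual C U →ₗ[C] V :=
  TensorProduct.lift
    (LinearMap.mk₂ C (fun x ξ => TensorProduct.rid C V (LinearMap.lTensor V ξ x))
      (fun x y ξ => by rw [map_add, map_add])
      (fun c x ξ => by rw [map_smul, map_smul])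
      (fun x ξ η => by rw [LinearMap.lTensor_add, LinearMap.add_apply, map_add])
      (fun c x ξ => by rw [LinearMap.lTensor_smul, LinearMap.smul_apply, map_smul]))

theorem contr_tmul (v : V) (u : U) (ξ : Module.Dual C U) :
    contr ((v ⊗ₜ[C] u) ⊗ₜ[C] ξ) = ξ u • v := by
  simp [contr]

theorem contr_equivariant (ρ : Act C G V) (τ : Act C G U) (π : Act C G (V ⊗[C] U))
    (δ : Act C G (Module.Dual C U)) (κ : Act C G ((V ⊗[C] U) ⊗[C] Module.Dual C U))
    (hπ : IsTensor ρ τ π) (hδ : IsDual τ δ) (hκ : IsTensor π δ κ) (g : G) :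
    contr ∘ₗ κ.act g = ρ.act g ∘ₗ (contr (C := C) (V := V) (U := U)) := by
  apply TensorProduct.ext_threefold
  intro v u ξ
  rw [LinearMap.comp_apply, LinearMap.comp_apply, hκ, TensorProduct.map_tmul, hπ,
    TensorProduct.map_tmul, contr_tmul, contr_tmul, map_smul, hδ]

theorem subquotient_contr (ρ : Act C G V) (τ : Act C G U) (π : Act C G (V ⊗[C] U))
    (δ : Act C G (Module.Dual C U)) (κ : Act C G ((V ⊗[C] U) ⊗[C] Module.Dual C U))
    (hπ : IsTensor ρ τ π) (hδ : IsDual τ δ) (hκ : IsTensor π δ κ)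
    [Nontrivial U] : IsSubquotient κ ρ := by
  refine ⟨LinearMap.graph contr, ?_, ?_, ?_⟩
  · intro g x v h
    rw [LinearMap.mem_graph_iff] at h ⊢
    change ρ.act g v = contr (κ.act g x)
    change v = contr x at h
    rw [h]
    exact (LinearMap.congr_fun (contr_equivariant ρ τ π δ κ hπ hδ hκ g) x).symm
  · intro v h
    rw [LinearMap.mem_graph_iff] at h
    change v = contr 0 at h
    rw [h, map_zero]
  · intro v
    obtain ⟨u, hu⟩ := exists_ne (0 : U)
    obtain ⟨ξ, hξ⟩ : ∃ ξ : Module.Dual C U, ξ u ≠ 0 := by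
      by_contra h
      push Not at h
      exact hu ((Module.forall_dual_apply_eq_zero_iff C u).mp h)
    refine ⟨(v ⊗ₜ[C] u) ⊗ₜ[C] ((ξ u)⁻¹ • ξ), ?_⟩
    rw [LinearMap.mem_graph_iff]
    change v = contr _
    rw [contr_tmul, LinearMap.smul_apply, smul_eq_mul, inv_mul_cancel₀ hξ, one_smul]

/-- the tensor product of two actions -/
noncomputable def tens (ρ : Act C G V) (τ : Act C G U) : Act C G (V ⊗[C] U) where
  act g := TensorProduct.map (ρ.act g) (τ.act g)
  one v := by
    have h1 : ρ.act 1 = LinearMap.id := LinearMap.ext ρ.one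
    have h2 : τ.act 1 = LinearMap.id := LinearMap.ext τ.one
    rw [h1, h2, TensorProduct.map_id, LinearMap.id_apply]
  mul g h v := by
    have h1 : ρ.act (g * h) = ρ.act g ∘ₗ ρ.act h := LinearMap.ext (ρ.mul g h)
    have h2 : τ.act (g * h) = τ.act g ∘ₗ τ.act h := LinearMap.ext (τ.mul g h)
    rw [h1, h2, TensorProduct.map_comp, LinearMap.comp_apply]

/-- the dual action -/
noncomputable def dual (τ : Act C G U) : Act C G (Module.Dual C U) where
  act g := Module.Dual.transpose (R := C) (τ.act g⁻¹)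
  one ξ := by
    ext u
    rw [Module.Dual.transpose_apply, LinearMap.comp_apply, inv_one, τ.one]
  mul g h ξ := by
    ext u
    simp only [Module.Dual.transpose_apply, LinearMap.comp_apply]
    rw [mul_inv_rev, τ.mul]

theorem isDual_dual (τ : Act C G U) : IsDual τ (dual τ) := by
  intro g ξ u
  change ξ (τ.act g⁻¹ (τ.act g u)) = ξ u
  rw [← τ.mul, inv_mul_cancel, τ.one]

end tensor

variable {T : Theory C G}

theorem geo_of_potential (hT : TensorFacts T) (hI : InductionFacts T) {W : Type}
    [AddCommGroup W] [Module C W]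
    (σ : Act C G W) (H : Subgroup G) (hH : T.Open H) {V : Type} [AddCommGroup V]
    [Module C V] (ρ : Act C H V) (hρ : T.GeoOver H ρ)
    (h : IsSubquotient ρ (σ.res H)) : T.Geo σ := by
  have := hI.finite H hH
  obtain ⟨I, _, _, ι, ev, h1, h2⟩ := hI.ind H hH ρ hρ
  exact hT.subquotient _ _ (subquotient_ind H ρ σ ι ev h1 h) h2

theorem isSubquotient_self {V : Type} [AddCommGroup V] [Module C V] (ρ : Act C G V) :
    IsSubquotient ρ ρ := by
  refine ⟨LinearMap.graph LinearMap.id, ?_, ?_, fun w => ⟨w, ?_⟩⟩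
  · intro g v w h
    rw [LinearMap.mem_graph_iff] at h ⊢
    change ρ.act g w = ρ.act g v
    change w = v at h
    rw [h]
  · intro w h
    rw [LinearMap.mem_graph_iff] at h
    exact h
  · rw [LinearMap.mem_graph_iff]
    rfl

theorem geo_of_tensor (hT : TensorFacts T) {V U : Type} [AddCommGroup V] [Module C V]
    [AddCommGroup U] [Module C U] [Nontrivial U] (ρ : Act C G V)
    (τ : Act C G U) (π : Act C G (V ⊗[C] U)) (hπ : IsTensor ρ τ π)
    (h1 : T.Geo π) (h2 : T.Geo τ) : T.Geo ρ :=
  hT.subquotient _ _ (subquotient_contr ρ τ π (dual τ) (tens π (dual τ)) hπ (isDual_dual τ)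
    (fun _ => rfl)) (hT.tensor π (dual τ) (tens π (dual τ)) (fun _ => rfl) h1
      (hT.dual τ _ (isDual_dual τ) h2))

end Pool.Agent.N522.BIA
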